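import Pool.Agent.Lib.MP_78bd4b_ag.Atlas
import Pool.Agent.Lib.MP_78bd4b_ag.Comp
import Pool.Agent.Lib.MP_78bd4b_ag.Data
import Pool.Agent.Lib.MP_78bd4b_ag.Real

/-! Every closed Seifert manifold, orientable or not, has a uniruled real model. -/

namespace Pool.Agent.Results.MP_78bd4b_ag.UniruledModel

open Pool.Agent.Lib.MP_78bd4b_ag
open scoped Manifold ContDiff

theorem result (M : Type*) [TopologicalSpace M] [T2Space M] [CompactSpace M] [ConnectedSpace M]
    [ChartedSpace (EuclideanSpace ℝ (Fin 3)) M] [IsManifold (𝓡 3) ∞ M] (h : IsSeifert M) :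
    HasModel M :=
  (exists_atl h).elim fun A => (exists_dat A).elim fun B => (model_of_dat B).hasModel

end Pool.Agent.Results.MP_78bd4b_ag.UniruledModel
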